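import Pool.Agent.K7.H24.PD.Pack
import Pool.Agent.K7.H99.PD_LIM
import Pool.Agent.K7.H28.PD_ROUGH
import Pool.Agent.K7.H90.PD_ASY
import Pool.Agent.K7.H97.PD_FINAL

/-!
# Sets without `{x, 2x, …, sx}`: `liminf s log s (1 - λ_s) ≥ (1 + log 2) e^{-γ}`

`pmax s n` is the largest size of a subset of `{1, …, n}` that contains no set `{x, 2x, …, sx}`, and
`lam s` is the upper limit (which is the limit `λ_s`) of `pmax s n / n`.

Proof: fractional packing of the patterns `x {1, …, s}` with `x = r` or `x = p r`, `p ≤ s` prime, `r`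
without prime factors up to `s`, `n / (K s) < x ≤ n / s`; the weight of the patterns is `1` for `x = r`
and nearly `log p / (log s + log p)` for `x = p r`.
-/

set_option autoImplicit false

namespace Pool.Agent.Results.MP_a617e8_nt.ExplicitConstant

open Filter Pool.Agent.K7.H24.PD

theorem result (c : ℝ)
    (hc : c < (1 + Real.log 2) * Real.exp (-Real.eulerMascheroniConstant)) :
    ∀ᶠ s : ℕ in atTop, c ≤ s * Real.log s * (1 - lam s) :=
  Pool.Agent.K7.H97.PDFINAL.t (Pool.Agent.K7.H99.PDLIM.t pack Pool.Agent.K7.H28.PDROUGH.t)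
    Pool.Agent.K7.H90.PDASY.t c hc

end Pool.Agent.Results.MP_a617e8_nt.ExplicitConstant
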